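import Pool.Agent.Helper11.PP.GoalsE
import Pool.Agent.Helper32.RD.VAL

/-!
# Project PP (MP_fc6b1e_nt), packet PP-DCND: the conductor of a class
-/

namespace Pool.Agent.Helper85.PP

open NumberField Polynomial Module IsDedekindDomain TensorProduct Pool.Agent.Helper51.SigLeo
open Pool.Agent.Helper51.RP Pool.Agent.Helper42.RD Pool.Agent.Helper11.LE Pool.Agent.Helper42.PP
open Pool.Agent.Helper17.PP Pool.Agent.Helper11.PP

theorem clp_eq {p : ℕ} {F : Type} [Field F] {a b : Fˣ} (h : clp p a = clp p b) :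
    ∃ y : Fˣ, b = a * y ^ p := by
  unfold clp at h
  rw [QuotientGroup.eq] at h
  obtain ⟨y, hy⟩ := h
  refine ⟨y, ?_⟩
  have h : y ^ p = a⁻¹ * b := hy
  rw [h, mul_inv_cancel_left]

section val

variable {K₁ : Type} [Field K₁] [NumberField K₁]

theorem dvd_iff {p : ℕ} (W : HeightOneSpectrum (𝓞 K₁)) (a y : K₁ˣ) :
    (p : ℤ) ∣ ordv W ((a * y ^ p : K₁ˣ) : K₁) ↔ (p : ℤ) ∣ ordv W (a : K₁) := by
  rw [Units.val_mul, Units.val_pow_eq_pow_val,
    Pool.Agent.Helper32.RDV.ordv_mul W a.ne_zero (pow_ne_zero _ y.ne_zero),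
    Pool.Agent.Helper32.RDV.ordv_pow]
  exact dvd_add_left (dvd_mul_right _ _)

theorem valC_iff {p : ℕ} {K : Type} [Field K] [NumberField K] [Algebra K K₁] (a : K₁ˣ)
    (v : HeightOneSpectrum (𝓞 K)) :
    ValC (clp p a) v ↔ ∃ W : HeightOneSpectrum (𝓞 K₁), Above W v ∧ ¬ (p : ℤ) ∣ ordv W (a : K₁) := by
  constructor
  · rintro ⟨a', h, W, hW, hd⟩
    obtain ⟨y, rfl⟩ := clp_eq h
    exact ⟨W, hW, fun h ↦ hd ((dvd_iff W a' y).1 h)⟩
  · rintro ⟨W, hW, hd⟩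
    exact ⟨a, rfl, W, hW, hd⟩

theorem loc_dvd {p : ℕ} {Z : Set (HeightOneSpectrum (𝓞 K₁))} {a aτ : K₁ˣ}
    (h : LocS p Z (a / aτ)) {W : HeightOneSpectrum (𝓞 K₁)} (hW : W ∈ Z) :
    (p : ℤ) ∣ ordv W (a : K₁) ↔ (p : ℤ) ∣ ordv W (aτ : K₁) := by
  obtain ⟨y, hy⟩ := h
  have h1 := (hy W hW).1
  set x : K₁ˣ := a / aτ * y ^ p with hx
  have h2 : W.valuation K₁ ((x : K₁) - 1) < 1 := by
    have : (x : K₁) = ((a / aτ : K₁ˣ) : K₁) * (y : K₁) ^ p := by
      rw [hx, Units.val_mul, Units.val_pow_eq_pow_val]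
    rw [this]
    exact h1
  have h3 : W.valuation K₁ (x : K₁) = 1 := by
    have h4 := (W.valuation K₁).map_one_add_of_lt h2
    rwa [add_sub_cancel] at h4
  have h5 := Pool.Agent.Helper32.RDV.ordv_eq_zero W h3
  have h6 : a * y ^ p = aτ * x := by
    rw [hx, div_mul_eq_mul_div, mul_div_cancel]
  rw [← dvd_iff W a y, h6, Units.val_mul, Pool.Agent.Helper32.RDV.ordv_mul W aτ.ne_zero x.ne_zero,
    h5, add_zero]

end val

theorem d_cnd : Pool.Agent.Helper11.PP.D_CND := by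
  intro p _ K K₁ _ _ _ _ _ S V Q a aτ b hVS hloc hV hQ hO hb
  classical
  have hp : p.Prime := Fact.out
  set A : Set (HeightOneSpectrum (𝓞 K)) := {v | v ∈ S ∧ ∃ W : HeightOneSpectrum (𝓞 K₁),
    Above W v ∧ ¬ (p : ℤ) ∣ ordv W (aτ : K₁)} with hA
  set B : Finset (HeightOneSpectrum (𝓞 K)) := b.image (fun q ↦ q.1.1) with hB
  have hinj : Set.InjOn (fun q : {q : HeightOneSpectrum (𝓞 K) × (ZMod p)ˣ // q.1 ∈ V} ↦ q.1.1)
      (b : Set _) := by
    intro q hq r hr hqr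
    have h1 := (hb q).1 hq
    have h2 := (hb r).1 hr
    have hqr' : q.1.1 = r.1.1 := hqr
    rw [hqr'] at h1
    have h3 : q.1.2 = r.1.2 := Units.ext (h1.symm.trans h2)
    exact Subtype.ext (Prod.ext hqr' h3)
  have hset : {v : HeightOneSpectrum (𝓞 K) | ValC (clp p a) v} = A ∪ (B : Set _) := by
    ext v
    simp only [Set.mem_setOf_eq, Set.mem_union, hA, hB, Finset.coe_image, Set.mem_image,
      Finset.mem_coe]
    rw [valC_iff]
    by_cases hvS : v ∈ S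
    · constructor
      · rintro ⟨W, hW, hd⟩
        exact Or.inl ⟨hvS, W, hW, fun h ↦ hd ((loc_dvd hloc ⟨v, hvS, hW⟩).2 h)⟩
      · rintro (⟨-, W, hW, hd⟩ | ⟨q, -, hq⟩)
        · exact ⟨W, hW, fun h ↦ hd ((loc_dvd hloc ⟨v, hvS, hW⟩).1 h)⟩
        · exact absurd hvS (hq ▸ hVS _ q.2)
    · constructor
      · rintro ⟨W, hW, hd⟩
        right
        by_cases hvV : v ∈ V
        · have h1 : ordp p (Q v) a ≠ 0 := fun h ↦ hd ((hV v hvV W hW).2 h)
          exact ⟨⟨(v, Units.mk0 _ h1), hvV⟩, (hb _).2 rfl, rfl⟩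
        · exact absurd (hO v hvS hvV W hW) hd
      · rintro (⟨h, -⟩ | ⟨q, hq, rfl⟩)
        · exact absurd h hvS
        · refine ⟨Q q.1.1, hQ _ q.2, fun h ↦ ?_⟩
          have h1 := (hV _ q.2 _ (hQ _ q.2)).1 h
          rw [(hb q).1 hq] at h1
          exact q.1.2.ne_zero h1
  have hdisj : Disjoint A (B : Set _) := by
    rw [Set.disjoint_left]
    rintro v ⟨hv, -⟩ hv'
    simp only [hB, Finset.coe_image, Set.mem_image, Finset.mem_coe] at hv'
    obtain ⟨q, -, rfl⟩ := hv'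
    exact hVS _ q.2 hv
  have hAf : A.Finite := S.finite_toSet.subset fun v hv ↦ hv.1
  have e1 : condC K (clp p a) =
      ∏ᶠ v ∈ {v : HeightOneSpectrum (𝓞 K) | ValC (clp p a) v}, Ideal.absNorm v.asIdeal := rfl
  have e2 : fT p S aτ = ∏ᶠ v ∈ A, Ideal.absNorm v.asIdeal := rfl
  rw [e1, e2, hset, finprod_mem_union hdisj hAf B.finite_toSet, finprod_mem_coe_finset, hB,
    Finset.prod_image hinj]

end Pool.Agent.Helper85.PP
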